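import Pool.Agent.Y208.BH.Stm
import Pool.Agent.TH74.Oligo.Pres

/-!
# Project BH, task FPQ: finite presentation of the extension of the Steinberg group
-/

set_option autoImplicit false

open scoped commutatorElement

namespace Pool.Agent.Y279.BH

open Y208.BH

section mv
variable {Λ S : Type} [Group Λ] [MulAction Λ S]

theorem mv_one (x : S ⊕ Fin 4) : mv (1 : Λ) x = x := by
  rcases x with s | c <;> simp [mv]

theorem mv_mul (g h : Λ) (x : S ⊕ Fin 4) : mv (g * h) x = mv g (mv h x) := by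
  rcases x with s | c <;> simp [mv, mul_smul]

theorem mv_inj (g : Λ) {x y : S ⊕ Fin 4} (h : mv g x = mv g y) : x = y := by
  have := congrArg (mv g⁻¹) h
  rwa [← mv_mul, ← mv_mul, inv_mul_cancel, mv_one, mv_one] at this

theorem mv_surj (g : Λ) (x : S ⊕ Fin 4) : ∃ y : S ⊕ Fin 4, mv g y = x :=
  ⟨mv g⁻¹ x, by rw [← mv_mul, mul_inv_cancel, mv_one]⟩

theorem al_mv (g : Λ) {x y : S ⊕ Fin 4} (h : Al x y) : Al (mv g x) (mv g y) := by
  refine ⟨fun e => h.1 (mv_inj g e), ?_⟩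
  rcases h.2 with ⟨c, rfl⟩ | ⟨c, rfl⟩
  · exact Or.inl ⟨c, rfl⟩
  · exact Or.inr ⟨c, rfl⟩

theorem al_mv_iff (g : Λ) {x y : S ⊕ Fin 4} : Al (mv g x) (mv g y) ↔ Al x y := by
  refine ⟨fun h => ?_, al_mv g⟩
  have := al_mv g⁻¹ h
  rwa [← mv_mul, ← mv_mul, inv_mul_cancel, mv_one, mv_one] at this

end mv

/-- the letters -/
def Lt (S : Type) (n : ℕ) : Type := {p : (S ⊕ Fin 4) × (S ⊕ Fin 4) // Al p.1 p.2} × Option (Fin n)

variable {Λ S : Type} [Group Λ] [MulAction Λ S] {n : ℕ}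

instance actLt : MulAction Λ (Lt S n) where
  smul g y := (⟨(mv g y.1.1.1, mv g y.1.1.2), al_mv g y.1.2⟩, y.2)
  one_smul y := by
    obtain ⟨⟨⟨i, j⟩, h⟩, a⟩ := y
    change ((⟨(mv (1 : Λ) i, mv (1 : Λ) j), _⟩, a) : Lt S n) = _
    refine Prod.ext (Subtype.ext ?_) rfl
    simp [mv_one]
  mul_smul g g' y := by
    obtain ⟨⟨⟨i, j⟩, h⟩, a⟩ := y
    refine Prod.ext (Subtype.ext ?_) rfl
    change (mv (g * g') i, mv (g * g') j) = (mv g (mv g' i), mv g (mv g' j))
    rw [mv_mul, mv_mul]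

/-- a letter -/
def lt (i j : S ⊕ Fin 4) (h : Al i j) (a : Option (Fin n)) : Lt S n := (⟨(i, j), h⟩, a)

theorem smul_lt (g : Λ) (i j : S ⊕ Fin 4) (h : Al i j) (a : Option (Fin n)) :
    g • lt i j h a = lt (mv g i) (mv g j) (al_mv g h) a := rfl

open Classical in
/-- the letter as an element of the free group (trivial if the pair is not allowed) -/
noncomputable def zt (i j : S ⊕ Fin 4) (a : Option (Fin n)) : FreeGroup (Lt S n) :=
  if h : Al i j then FreeGroup.of (lt i j h a) else 1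

theorem zt_of {i j : S ⊕ Fin 4} (h : Al i j) (a : Option (Fin n)) :
    zt i j a = FreeGroup.of (lt i j h a) := by
  simp [zt, h]

theorem lift_zt_mv {Γ : Type} [Group Γ] (i' : Λ →* Γ) (a' : Lt S n → Γ)
    (h : ∀ g y, i' g * a' y * (i' g)⁻¹ = a' (g • y)) (g : Λ) (i j : S ⊕ Fin 4)
    (a : Option (Fin n)) :
    i' g * FreeGroup.lift a' (zt i j a) * (i' g)⁻¹ = FreeGroup.lift a' (zt (mv g i) (mv g j) a) := by
  by_cases hh : Al i j
  · rw [zt_of hh, zt_of (al_mv g hh), FreeGroup.lift_apply_of, FreeGroup.lift_apply_of, h, smul_lt]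
  · have h2 : ¬ Al (mv g i) (mv g j) := fun h3 => hh ((al_mv_iff g).1 h3)
    simp [zt, hh, h2]

/-- the indices of a relation -/
abbrev Ix (S : Type) : Type := (S ⊕ Fin 4) × (S ⊕ Fin 4) × (S ⊕ Fin 4) × (S ⊕ Fin 4)

open Classical in
/-- the relators -/
noncomputable def rel (n : ℕ) : Ix S × (Option (Fin n) × Option (Fin n)) × Fin 6 → FreeGroup (Lt S n)
  | ((i, j, _, _), (a, _), 0) => if Al i j then zt i j a * zt i j a else 1
  | ((i, j, k, l), (a, b), 1) =>
    if Al i j ∧ Al k l ∧ j ≠ k ∧ i ≠ l then ⁅zt i j a, zt k l b⁆ else 1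
  | ((i, j, k, _), (a, _), 2) =>
    if Al i j ∧ Al j k ∧ Al i k then ⁅zt i j a, zt j k (none : Option (Fin n))⁆ * (zt i k a)⁻¹ else 1
  | ((i, j, k, _), (a, _), 3) =>
    if Al i j ∧ Al j k ∧ Al i k then ⁅zt i j (none : Option (Fin n)), zt j k a⁆ * (zt i k a)⁻¹ else 1
  | ((i, j, j', k), (a, _), 4) =>
    if i ≠ k ∧ Al i j ∧ Al j k ∧ Al i j' ∧ Al j' k then
      ⁅zt i j a, zt j k (none : Option (Fin n))⁆ * (⁅zt i j' a, zt j' k (none : Option (Fin n))⁆)⁻¹ else 1
  | ((i, j, j', k), (a, _), 5) =>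
    if i ≠ k ∧ Al i j ∧ Al j k ∧ Al i j' ∧ Al j' k then
      ⁅zt i j (none : Option (Fin n)), zt j k a⁆ * (⁅zt i j' a, zt j' k (none : Option (Fin n))⁆)⁻¹ else 1

/-- PairRel implies all relators -/
theorem rel_of_pairRel {Γ : Type} [Group Γ] (z : S ⊕ Fin 4 → S ⊕ Fin 4 → Option (Fin n) → Γ)
    (hz : PairRel z) (f : FreeGroup (Lt S n) →* Γ) (hf : ∀ i j a, Al i j → f (zt i j a) = z i j a)
    (q : Ix S × (Option (Fin n) × Option (Fin n)) × Fin 6) : f (rel n q) = 1 := by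
  obtain ⟨⟨i, j, k, l⟩, ⟨a, b⟩, t⟩ := q
  fin_cases t
  · by_cases h : Al i j
    · simp only [rel]
      rw [if_pos h, map_mul, hf _ _ _ h]
      exact hz.sq i j a h
    · simp only [rel]
      rw [if_neg h, map_one]
  · by_cases h : Al i j ∧ Al k l ∧ j ≠ k ∧ i ≠ l
    · simp only [rel]
      rw [if_pos h, map_commutatorElement, hf _ _ _ h.1, hf _ _ _ h.2.1]
      exact commutatorElement_eq_one_iff_commute.2 (hz.comm i j k l a b h.1 h.2.1 h.2.2.1 h.2.2.2)
    · simp only [rel]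
      rw [if_neg h, map_one]
  · by_cases h : Al i j ∧ Al j k ∧ Al i k
    · simp only [rel]
      rw [if_pos h, map_mul, map_inv, map_commutatorElement, hf _ _ _ h.1, hf _ _ _ h.2.1,
        hf _ _ _ h.2.2, mul_inv_eq_one]
      exact hz.mul1 i j k a h.1 h.2.1 h.2.2
    · simp only [rel]
      rw [if_neg h, map_one]
  · by_cases h : Al i j ∧ Al j k ∧ Al i k
    · simp only [rel]
      rw [if_pos h, map_mul, map_inv, map_commutatorElement, hf _ _ _ h.1, hf _ _ _ h.2.1,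
        hf _ _ _ h.2.2, mul_inv_eq_one]
      exact hz.mul2 i j k a h.1 h.2.1 h.2.2
    · simp only [rel]
      rw [if_neg h, map_one]
  · by_cases h : i ≠ l ∧ Al i j ∧ Al j l ∧ Al i k ∧ Al k l
    · simp only [rel]
      rw [if_pos h, map_mul, map_inv, map_commutatorElement, map_commutatorElement, hf _ _ _ h.2.1,
        hf _ _ _ h.2.2.1, hf _ _ _ h.2.2.2.1, hf _ _ _ h.2.2.2.2, mul_inv_eq_one]
      exact hz.ind1 i j k l a h.1 h.2.1 h.2.2.1 h.2.2.2.1 h.2.2.2.2
    · simp only [rel]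
      rw [if_neg h, map_one]
  · by_cases h : i ≠ l ∧ Al i j ∧ Al j l ∧ Al i k ∧ Al k l
    · simp only [rel]
      rw [if_pos h, map_mul, map_inv, map_commutatorElement, map_commutatorElement, hf _ _ _ h.2.1,
        hf _ _ _ h.2.2.1, hf _ _ _ h.2.2.2.1, hf _ _ _ h.2.2.2.2, mul_inv_eq_one]
      exact hz.ind2 i j k l a h.1 h.2.1 h.2.2.1 h.2.2.2.1 h.2.2.2.2
    · simp only [rel]
      rw [if_neg h, map_one]

/-- If all relators are trivial then PairRel holds. -/
theorem pairRel_of_rel {Γ : Type} [Group Γ] (f : FreeGroup (Lt S n) →* Γ)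
    (h : ∀ q, f (rel n q) = 1) : PairRel (fun i j (a : Option (Fin n)) => f (zt (S := S) i j a)) where
  sq i j a h1 := by
    have := h ((i, j, i, j), (a, a), 0)
    simp only [rel] at this
    rw [if_pos h1, map_mul] at this
    exact this
  comm i j k l a b h1 h2 h3 h4 := by
    have := h ((i, j, k, l), (a, b), 1)
    simp only [rel] at this
    rw [if_pos ⟨h1, h2, h3, h4⟩, map_commutatorElement,
      commutatorElement_eq_one_iff_commute] at this
    exact this
  mul1 i j k a h1 h2 h3 := by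
    have := h ((i, j, k, i), (a, a), 2)
    simp only [rel] at this
    rw [if_pos ⟨h1, h2, h3⟩, map_mul, map_inv, map_commutatorElement, mul_inv_eq_one] at this
    exact this
  mul2 i j k a h1 h2 h3 := by
    have := h ((i, j, k, i), (a, a), 3)
    simp only [rel] at this
    rw [if_pos ⟨h1, h2, h3⟩, map_mul, map_inv, map_commutatorElement, mul_inv_eq_one] at this
    exact this
  ind1 i j j' k a h1 h2 h3 h4 h5 := by
    have := h ((i, j, j', k), (a, a), 4)
    simp only [rel] at this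
    rw [if_pos ⟨h1, h2, h3, h4, h5⟩, map_mul, map_inv, map_commutatorElement,
      map_commutatorElement, mul_inv_eq_one] at this
    exact this
  ind2 i j j' k a h1 h2 h3 h4 h5 := by
    have := h ((i, j, j', k), (a, a), 5)
    simp only [rel] at this
    rw [if_pos ⟨h1, h2, h3, h4, h5⟩, map_mul, map_inv, map_commutatorElement,
      map_commutatorElement, mul_inv_eq_one] at this
    exact this

/-! ### Equivariance of the relators -/

/-- the allowed indices for representatives -/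
def JT (E : Finset (S × S)) : Set (S ⊕ Fin 4) :=
  (Sum.inl '' ((Prod.fst '' (E : Set (S × S))) ∪ (Prod.snd '' (E : Set (S × S))))) ∪
    Set.range Sum.inr

theorem JT_finite (E : Finset (S × S)) : (JT E).Finite := by
  refine Set.Finite.union (Set.Finite.image _ (Set.Finite.union ?_ ?_)) (Set.finite_range _)
  · exact E.finite_toSet.image _
  · exact E.finite_toSet.image _

theorem exists_rep (E : Finset (S × S)) (hE : ∀ x y : S, ∃ g : Λ, ∃ p ∈ E, g • p.1 = x ∧ g • p.2 = y)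
    (s t : S) : ∃ g : Λ, ∀ x : S ⊕ Fin 4, (x = .inl s ∨ x = .inl t ∨ ∃ c, x = .inr c) →
      ∃ x' ∈ JT E, mv g x' = x := by
  obtain ⟨g, p, hp, h1, h2⟩ := hE s t
  refine ⟨g, ?_⟩
  rintro x (rfl | rfl | ⟨c, rfl⟩)
  · refine ⟨.inl p.1, Or.inl ⟨p.1, Or.inl ⟨p, hp, rfl⟩, rfl⟩, ?_⟩
    simp [mv, h1]
  · refine ⟨.inl p.2, Or.inl ⟨p.2, Or.inr ⟨p, hp, rfl⟩, rfl⟩, ?_⟩
    simp [mv, h2]
  · exact ⟨.inr c, Or.inr ⟨c, rfl⟩, rfl⟩

theorem al_one [Nonempty S] {i j : S ⊕ Fin 4} (h : Al i j) : ∃ s : S,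
    (i = .inl s ∨ ∃ c, i = .inr c) ∧ (j = .inl s ∨ ∃ c, j = .inr c) := by
  rcases i with s | c
  · rcases j with t | d
    · rcases h.2 with ⟨c, hc⟩ | ⟨c, hc⟩
      · exact absurd hc (by simp)
      · exact absurd hc (by simp)
    · exact ⟨s, Or.inl rfl, Or.inr ⟨d, rfl⟩⟩
  · rcases j with t | d
    · exact ⟨t, Or.inr ⟨c, rfl⟩, Or.inl rfl⟩
    · exact ⟨Classical.arbitrary S, Or.inr ⟨c, rfl⟩, Or.inr ⟨d, rfl⟩⟩

theorem exists_rep4 [Nonempty S] (E : Finset (S × S))
    (hE : ∀ x y : S, ∃ g : Λ, ∃ p ∈ E, g • p.1 = x ∧ g • p.2 = y)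
    {i j k l : S ⊕ Fin 4} (h1 : Al i j) (h2 : Al k l) : ∃ g : Λ, ∃ i' ∈ JT E, ∃ j' ∈ JT E,
      ∃ k' ∈ JT E, ∃ l' ∈ JT E, mv g i' = i ∧ mv g j' = j ∧ mv g k' = k ∧ mv g l' = l := by
  obtain ⟨s, hi, hj⟩ := al_one h1
  obtain ⟨t, hk, hl⟩ := al_one h2
  obtain ⟨g, hg⟩ := exists_rep E hE s t
  obtain ⟨i', hi', ei⟩ := hg i (by tauto)
  obtain ⟨j', hj', ej⟩ := hg j (by tauto)
  obtain ⟨k', hk', ek⟩ := hg k (by tauto)
  obtain ⟨l', hl', el⟩ := hg l (by tauto)
  exact ⟨g, i', hi', j', hj', k', hk', l', hl', ei, ej, ek, el⟩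

/-- the finite set of representatives of the relators -/
def WR (n : ℕ) (E : Finset (S × S)) : Set (FreeGroup (Lt S n)) :=
  rel n '' ((JT E ×ˢ JT E ×ˢ JT E ×ˢ JT E) ×ˢ Set.univ)

theorem WR_finite (n : ℕ) (E : Finset (S × S)) : (WR n E).Finite :=
  (((JT_finite E).prod ((JT_finite E).prod ((JT_finite E).prod (JT_finite E)))).prod
    Set.finite_univ).image _

/-- The relators for representatives and equivariance give all relations. -/
theorem pairRel_of_WR [Nonempty S] (E : Finset (S × S))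
    (hE : ∀ x y : S, ∃ g : Λ, ∃ p ∈ E, g • p.1 = x ∧ g • p.2 = y)
    {Γ : Type} [Group Γ] (i' : Λ →* Γ) (a' : Lt S n → Γ)
    (h : ∀ g y, i' g * a' y * (i' g)⁻¹ = a' (g • y))
    (hW : ∀ w ∈ WR n E, FreeGroup.lift a' w = 1) :
    PairRel (fun i j (a : Option (Fin n)) => FreeGroup.lift a' (zt (S := S) i j a)) := by
  have key : ∀ i ∈ JT E, ∀ j ∈ JT E, ∀ k ∈ JT E, ∀ l ∈ JT E, ∀ ab t,
      FreeGroup.lift a' (rel n ((i, j, k, l), ab, t)) = 1 := by
    intro i hi j hj k hk l hl ab t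
    exact hW _ ⟨((i, j, k, l), ab, t), ⟨⟨hi, hj, hk, hl⟩, trivial⟩, rfl⟩
  have cz : ∀ (g : Λ) i j (a : Option (Fin n)),
      FreeGroup.lift a' (zt (mv g i) (mv g j) a) =
        MulAut.conj (i' g) (FreeGroup.lift a' (zt (S := S) i j a)) := by
    intro g i j a
    rw [MulAut.conj_apply, lift_zt_mv i' a' h]
  refine ⟨?_, ?_, ?_, ?_, ?_, ?_⟩
  · intro i j a h1
    obtain ⟨g, i, hi, j, hj, -, -, -, -, rfl, rfl, -, -⟩ := exists_rep4 E hE h1 h1
    have h1' := (al_mv_iff g).1 h1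
    have := key i hi j hj i hi j hj (a, a) 0
    simp only [rel] at this
    rw [if_pos h1', map_mul] at this
    rw [cz, ← map_mul, this, map_one]
  · intro i j k l a b h1 h2 h3 h4
    obtain ⟨g, i, hi, j, hj, k, hk, l, hl, rfl, rfl, rfl, rfl⟩ := exists_rep4 E hE h1 h2
    have h1' := (al_mv_iff g).1 h1
    have h2' := (al_mv_iff g).1 h2
    have h3' : j ≠ k := fun e => h3 (by rw [e])
    have h4' : i ≠ l := fun e => h4 (by rw [e])
    have := key i hi j hj k hk l hl (a, b) 1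
    simp only [rel] at this
    rw [if_pos ⟨h1', h2', h3', h4'⟩, map_commutatorElement] at this
    rw [← commutatorElement_eq_one_iff_commute, cz, cz, ← map_commutatorElement, this, map_one]
  · intro i j k a h1 h2 h3
    obtain ⟨g, i, hi, j, hj, j', -, k, hk, rfl, rfl, -, rfl⟩ := exists_rep4 E hE h1 h2
    have h1' := (al_mv_iff g).1 h1
    have h2' := (al_mv_iff g).1 h2
    have h3' := (al_mv_iff g).1 h3
    have := key i hi j hj k hk i hi (a, a) 2
    simp only [rel] at this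
    rw [if_pos ⟨h1', h2', h3'⟩, map_mul, map_inv, map_commutatorElement, mul_inv_eq_one] at this
    rw [cz, cz, cz, ← map_commutatorElement, this]
  · intro i j k a h1 h2 h3
    obtain ⟨g, i, hi, j, hj, j', -, k, hk, rfl, rfl, -, rfl⟩ := exists_rep4 E hE h1 h2
    have h1' := (al_mv_iff g).1 h1
    have h2' := (al_mv_iff g).1 h2
    have h3' := (al_mv_iff g).1 h3
    have := key i hi j hj k hk i hi (a, a) 3
    simp only [rel] at this
    rw [if_pos ⟨h1', h2', h3'⟩, map_mul, map_inv, map_commutatorElement, mul_inv_eq_one] at this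
    rw [cz, cz, cz, ← map_commutatorElement, this]
  · intro i j k l a h0 h1 h2 h3 h4
    obtain ⟨g, i, hi, j, hj, k, hk, l, hl, rfl, rfl, rfl, rfl⟩ := exists_rep4 E hE h1 h4
    have h0' : i ≠ l := fun e => h0 (by rw [e])
    have h1' := (al_mv_iff g).1 h1
    have h2' := (al_mv_iff g).1 h2
    have h3' := (al_mv_iff g).1 h3
    have h4' := (al_mv_iff g).1 h4
    have := key i hi j hj k hk l hl (a, a) 4
    simp only [rel] at this
    rw [if_pos ⟨h0', h1', h2', h3', h4'⟩, map_mul, map_inv, map_commutatorElement,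
      map_commutatorElement, mul_inv_eq_one] at this
    rw [cz, cz, cz, cz, ← map_commutatorElement, this, map_commutatorElement]
  · intro i j k l a h0 h1 h2 h3 h4
    obtain ⟨g, i, hi, j, hj, k, hk, l, hl, rfl, rfl, rfl, rfl⟩ := exists_rep4 E hE h1 h4
    have h0' : i ≠ l := fun e => h0 (by rw [e])
    have h1' := (al_mv_iff g).1 h1
    have h2' := (al_mv_iff g).1 h2
    have h3' := (al_mv_iff g).1 h3
    have h4' := (al_mv_iff g).1 h4
    have := key i hi j hj k hk l hl (a, a) 5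
    simp only [rel] at this
    rw [if_pos ⟨h0', h1', h2', h3', h4'⟩, map_mul, map_inv, map_commutatorElement,
      map_commutatorElement, mul_inv_eq_one] at this
    rw [cz, cz, cz, cz, ← map_commutatorElement, this, map_commutatorElement]

/-! ### Orbits and stabilizers of the letters -/

theorem finite_orbits [Nonempty S] (E : Finset (S × S))
    (hE : ∀ x y : S, ∃ g : Λ, ∃ p ∈ E, g • p.1 = x ∧ g • p.2 = y) :
    Finite (MulAction.orbitRel.Quotient Λ (Lt S n)) := by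
  let F : Set (Lt S n) := {y | y.1.1.1 ∈ JT E ∧ y.1.1.2 ∈ JT E}
  have hF : F.Finite := by
    let f : Lt S n → ((S ⊕ Fin 4) × (S ⊕ Fin 4)) × Option (Fin n) := fun y => (y.1.1, y.2)
    have hf : Function.Injective f := by
      rintro ⟨⟨p, hp⟩, a⟩ ⟨⟨q, hq⟩, b⟩ e
      simp only [f, Prod.mk.injEq] at e
      obtain ⟨rfl, rfl⟩ := e
      rfl
    have : F ⊆ f ⁻¹' ((JT E ×ˢ JT E) ×ˢ Set.univ) := by
      intro y hy
      exact ⟨⟨hy.1, hy.2⟩, trivial⟩
    exact (Set.Finite.preimage hf.injOn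
      (((JT_finite E).prod (JT_finite E)).prod Set.finite_univ)).subset this
  have : Finite F := hF
  refine Finite.of_surjective
    (fun y : F => (Quotient.mk _ y.1 : MulAction.orbitRel.Quotient Λ (Lt S n))) ?_
  intro q
  obtain ⟨y, rfl⟩ := Quotient.exists_rep q
  obtain ⟨⟨⟨i, j⟩, h⟩, a⟩ := y
  obtain ⟨g, i', hi, j', hj, -, -, -, -, e1, e2, -, -⟩ := exists_rep4 E hE h h
  dsimp only at e1 e2
  subst e1 e2
  have h' := (al_mv_iff g).1 h
  refine ⟨⟨lt i' j' h' a, hi, hj⟩, ?_⟩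
  apply Quotient.sound
  refine ⟨g⁻¹, ?_⟩
  change g⁻¹ • (g • lt i' j' h' a) = _
  rw [inv_smul_smul]

theorem fg_stab (hfp : Group.IsFinitelyPresented Λ) (hst : ∀ s : S, (MulAction.stabilizer Λ s).FG)
    (y : Lt S n) : (MulAction.stabilizer Λ y).FG := by
  obtain ⟨⟨⟨i, j⟩, h⟩, a⟩ := y
  have key : ∀ g : Λ, g ∈ MulAction.stabilizer Λ (lt i j h a) ↔ mv g i = i ∧ mv g j = j := by
    intro g
    rw [MulAction.mem_stabilizer_iff, smul_lt]
    constructor
    · intro e
      have := congrArg (fun y : Lt S n => y.1.1) e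
      exact ⟨congrArg Prod.fst this, congrArg Prod.snd this⟩
    · rintro ⟨e1, e2⟩
      exact Prod.ext (Subtype.ext (Prod.ext e1 e2)) rfl
  change (MulAction.stabilizer Λ (lt i j h a)).FG
  rcases i with s | c
  · rcases j with t | d
    · rcases h.2 with ⟨c, hc⟩ | ⟨c, hc⟩
      · exact absurd hc (by simp)
      · exact absurd hc (by simp)
    · have : MulAction.stabilizer Λ (lt (.inl s) (.inr d) h a) = MulAction.stabilizer Λ s := by
        ext g
        rw [key, MulAction.mem_stabilizer_iff]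
        simp [mv]
      rw [this]
      exact hst s
  · rcases j with t | d
    · have : MulAction.stabilizer Λ (lt (.inr c) (.inl t) h a) = MulAction.stabilizer Λ t := by
        ext g
        rw [key, MulAction.mem_stabilizer_iff]
        simp [mv]
      rw [this]
      exact hst t
    · have : MulAction.stabilizer Λ (lt (.inr c) (.inr d) h a) = ⊤ := by
        ext g
        rw [key]
        simp [mv]
      rw [this]
      obtain ⟨m, φ, hφ, -⟩ := hfp.out
      have : Group.FG Λ := Group.fg_of_surjective hφ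
      exact Group.FG.out

/-! ### Steinberg systems -/

/-- the unit and the generators of the free algebra -/
noncomputable def gr {A : Type} : Option A → FreeAlgebra (ZMod 2) A
  | none => 1
  | some a => FreeAlgebra.ι (ZMod 2) a

/-- Steinberg systems over an algebra of characteristic two satisfy PairRel. -/
theorem pairRel_of_st {A S R Γ : Type} [Ring R] [Algebra (ZMod 2) R] [Group Γ]
    (x : S ⊕ Fin 4 → S ⊕ Fin 4 → R → Γ) (hx : St x) (f : Option A → R) (hf : f none = 1) :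
    PairRel (fun i j a => x i j (f a)) := by
  have h0 : ∀ i j, i ≠ j → x i j 0 = 1 := by
    intro i j h
    have := hx.add i j h 0 0
    rw [add_zero] at this
    exact (left_eq_mul.1 this)
  refine ⟨?_, ?_, ?_, ?_, ?_, ?_⟩
  · intro i j a h
    rw [← hx.add i j h.1, ZModModule.add_self, h0 i j h.1]
  · intro i j k l a b h1 h2 h3 h4
    exact hx.comm i j k l h1.1 h2.1 h3 h4 _ _
  · intro i j k a h1 h2 h3
    rw [hf, hx.mul i j k h1.1 h2.1 h3.1, mul_one]
  · intro i j k a h1 h2 h3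
    rw [hf, hx.mul i j k h1.1 h2.1 h3.1, one_mul]
  · intro i j j' k a h0 h1 h2 h3 h4
    rw [hf, hx.mul i j k h1.1 h2.1 h0, hx.mul i j' k h3.1 h4.1 h0]
  · intro i j j' k a h0 h1 h2 h3 h4
    rw [hf, hx.mul i j k h1.1 h2.1 h0, hx.mul i j' k h3.1 h4.1 h0, one_mul, mul_one]

/-- Steinberg systems over the free algebra are determined by the letters with allowed indices. -/
theorem uniq (hU : S_UNIQ) {A S Γ : Type} [Infinite S] [Group Γ]
    (x x' : S ⊕ Fin 4 → S ⊕ Fin 4 → FreeAlgebra (ZMod 2) A → Γ) (hx : St x) (hx' : St x')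
    (h : ∀ i j a, Al i j → x i j (gr a) = x' i j (gr a)) :
    ∀ i j r, i ≠ j → x i j r = x' i j r := by
  have key : ∀ i j a, i ≠ j → x i j (gr a) = x' i j (gr a) := by
    intro i j a hij
    by_cases hA : Al i j
    · exact h i j a hA
    · rcases i with s | c
      · rcases j with t | d
        · have a1 : Al (.inl s : S ⊕ Fin 4) (.inr 0) := ⟨by simp, Or.inr ⟨0, rfl⟩⟩
          have a2 : Al (.inr 0 : S ⊕ Fin 4) (.inl t) := ⟨by simp, Or.inl ⟨0, rfl⟩⟩
          have e1 := hx.mul (.inl s) (.inr 0) (.inl t) a1.1 a2.1 hij (gr a) (gr none)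
          have e2 := hx'.mul (.inl s) (.inr 0) (.inl t) a1.1 a2.1 hij (gr a) (gr none)
          rw [h _ _ _ a1, h _ _ _ a2, e2] at e1
          have e3 : (gr a * gr none : FreeAlgebra (ZMod 2) A) = gr a := mul_one _
          rw [e3] at e1
          exact e1.symm
        · exact absurd ⟨hij, Or.inr ⟨d, rfl⟩⟩ hA
      · exact absurd ⟨hij, Or.inl ⟨c, rfl⟩⟩ hA
  exact hU A (S ⊕ Fin 4) Γ x x' hx hx' (fun i j hij => key i j none hij)
    (fun i j a hij => key i j (some a) hij)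

theorem exist (hL : S_LET) (hP : S_PAIR) {A S Γ : Type} [Infinite S] [Group Γ]
    (z : S ⊕ Fin 4 → S ⊕ Fin 4 → Option A → Γ) (hz : PairRel z) :
    ∃ x : S ⊕ Fin 4 → S ⊕ Fin 4 → FreeAlgebra (ZMod 2) A → Γ, St x ∧
      ∀ i j a, Al i j → x i j (gr a) = z i j a := by
  obtain ⟨y, hy, h1, -⟩ := hP A S Γ z hz
  obtain ⟨x, hx, h2, h3⟩ := hL A (S ⊕ Fin 4) Γ y hy
  refine ⟨x, hx, ?_⟩
  intro i j a hA
  rw [← h1 i j a hA]
  rcases a with _ | a
  · exact h2 i j hA.1
  · exact h3 i j a hA.1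

theorem st_comp_hom {R I Γ Γ' : Type} [Ring R] [Group Γ] [Group Γ'] (x : I → I → R → Γ) (hx : St x)
    (f : Γ →* Γ') : St (fun i j r => f (x i j r)) where
  add i j h a b := by rw [hx.add i j h, map_mul]
  mul i j k h1 h2 h3 a b := by rw [← hx.mul i j k h1 h2 h3, map_commutatorElement]
  comm i j k l h1 h2 h3 h4 a b := (hx.comm i j k l h1 h2 h3 h4 a b).map f

theorem st_comp_ring {R R' I Γ : Type} [Ring R] [Ring R'] [Group Γ] (x : I → I → R → Γ)
    (hx : St x) (f : R' →+* R) : St (fun i j r => x i j (f r)) where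
  add i j h a b := by rw [map_add, hx.add i j h]
  mul i j k h1 h2 h3 a b := by rw [map_mul, hx.mul i j k h1 h2 h3]
  comm i j k l h1 h2 h3 h4 a b := hx.comm i j k l h1 h2 h3 h4 _ _

theorem st_comp_mv {R Γ : Type} [Ring R] [Group Γ] (x : S ⊕ Fin 4 → S ⊕ Fin 4 → R → Γ)
    (hx : St x) (g : Λ) : St (fun i j r => x (mv g i) (mv g j) r) where
  add i j h a b := hx.add _ _ (fun e => h (mv_inj g e)) _ _
  mul i j k h1 h2 h3 a b := hx.mul _ _ _ (fun e => h1 (mv_inj g e)) (fun e => h2 (mv_inj g e))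
    (fun e => h3 (mv_inj g e)) _ _
  comm i j k l h1 h2 h3 h4 a b := hx.comm _ _ _ _ (fun e => h1 (mv_inj g e))
    (fun e => h2 (mv_inj g e)) (fun e => h3 (mv_inj g e)) (fun e => h4 (mv_inj g e)) _ _

/-- The words which represent the elements `x_{cd}(t)` in all groups with PairRel. -/
theorem exists_word (hL : S_LET) (hP : S_PAIR) (hU : S_UNIQ) [Infinite S]
    (t : FreeAlgebra (ZMod 2) (Fin n)) : ∃ w : FreeGroup (Lt S n), ∀ (Γ : Type) [Group Γ]
      (a' : Lt S n → Γ), (∀ q, FreeGroup.lift a' (rel n q) = 1) →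
      ∀ x : S ⊕ Fin 4 → S ⊕ Fin 4 → FreeAlgebra (ZMod 2) (Fin n) → Γ, St x →
        (∀ i j a, Al i j → x i j (gr a) = FreeGroup.lift a' (zt i j a)) →
        FreeGroup.lift a' w = x (.inr 0) (.inr 1) t := by
  let U := PresentedGroup (Set.range (rel (S := S) n))
  have hz : PairRel (fun i j (a : Option (Fin n)) =>
      PresentedGroup.mk (Set.range (rel (S := S) n)) (zt (S := S) i j a)) := by
    apply pairRel_of_rel
    intro q
    exact PresentedGroup.one_of_mem ⟨q, rfl⟩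
  obtain ⟨xU, hxU, hxz⟩ := exist hL hP _ hz
  obtain ⟨w, hw⟩ := PresentedGroup.mk_surjective (Set.range (rel (S := S) n)) (xU (.inr 0) (.inr 1) t)
  refine ⟨w, ?_⟩
  intro Γ _ a' ha' x hx hxa
  let f : U →* Γ := PresentedGroup.toGroup (f := a') (by rintro _ ⟨q, rfl⟩; exact ha' q)
  have hf : ∀ v, f (PresentedGroup.mk (Set.range (rel (S := S) n)) v) = FreeGroup.lift a' v := by
    intro v
    rfl
  rw [← hf, hw]
  exact uniq hU (fun i j r => f (xU i j r)) x (st_comp_hom _ hxU f) hx (by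
    intro i j a hA
    rw [hxz i j a hA, hf, hxa i j a hA]) _ _ _ (by simp)

/-- TASK FPQ -/
theorem t_FPQ : S_LET → S_PAIR → S_UNIQ → S_QUO → S_FPQ := by
  intro hL hP hU hQ Λ S R _ _ _ _ hT hR
  obtain ⟨n, φ, T, hφs, hφ⟩ := hR
  have := hT.inf
  have := hT.fp
  obtain ⟨E, hE⟩ := hT.orb
  have : Finite (MulAction.orbitRel.Quotient Λ (Lt S n)) := finite_orbits E hE
  choose W hW using exists_word (S := S) (n := n) hL hP hU
  obtain ⟨Q, _, i, a, hfp, heq, hrel, hgen, huniv⟩ := Pool.Agent.TH74.Oligo.relPres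
    (G := Λ) (Y := Lt S n) (fg_stab hT.fp hT.stab) (WR n E ∪ W '' (T : Set _))
    ((WR_finite n E).union (T.finite_toSet.image _))
  have hz := pairRel_of_WR E hE i a heq (fun w hw => hrel w (Or.inl hw))
  have hall : ∀ q, FreeGroup.lift a (rel n q) = 1 :=
    rel_of_pairRel _ hz (FreeGroup.lift a) (fun _ _ _ _ => rfl)
  obtain ⟨x₀, hx₀, hx₀z⟩ := exist hL hP _ hz
  have hxT : ∀ t ∈ (T : Set (FreeAlgebra (ZMod 2) (Fin n))), x₀ (.inr 0) (.inr 1) t = 1 := by
    intro t ht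
    rw [← hW t Q a hall x₀ hx₀ hx₀z]
    exact hrel _ (Or.inr ⟨t, ht, rfl⟩)
  obtain ⟨x, hx, hxφ⟩ := hQ (FreeAlgebra (ZMod 2) (Fin n)) R (S ⊕ Fin 4) Q (φ : _ →+* R)
    (T : Set _) x₀ hφs (fun r hr => (hφ r).1 hr) hx₀ ⟨.inr 0, .inr 1, by simp, hxT⟩
  refine ⟨Q, _, i, x, hfp, ⟨hx, ?_, ?_, ?_⟩⟩
  · intro g b c r hbc
    obtain ⟨p, rfl⟩ := hφs r
    have e1 : x b c (φ p) = x₀ b c p := hxφ b c p hbc
    have e2 : x (mv g b) (mv g c) (φ p) = x₀ (mv g b) (mv g c) p :=
      hxφ _ _ p (fun e => hbc (mv_inj g e))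
    rw [e1, e2]
    have := uniq hU (fun i' j' r => (MulAut.conj (i g)).toMonoidHom (x₀ i' j' r))
      (fun i' j' r => x₀ (mv g i') (mv g j') r) (st_comp_hom _ hx₀ _) (st_comp_mv _ hx₀ g) (by
        intro i' j' a' hA
        rw [hx₀z i' j' a' hA, hx₀z _ _ a' (al_mv g hA), ← lift_zt_mv i a heq]
        rfl) b c p hbc
    exact this
  · rw [eq_top_iff, ← hgen, Subgroup.closure_le]
    rintro _ (⟨g, rfl⟩ | ⟨y, rfl⟩)
    · exact Subgroup.subset_closure (Or.inl ⟨g, rfl⟩)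
    · apply Subgroup.subset_closure
      right
      obtain ⟨⟨⟨b, c⟩, h⟩, a'⟩ := y
      refine ⟨b, c, φ (gr a'), h.1, ?_⟩
      have e1 : x b c (φ (gr a')) = x₀ b c (gr a') := hxφ b c _ h.1
      rw [e1, hx₀z b c a' h, zt_of h, FreeGroup.lift_apply_of]
      rfl
  · intro Γ _ i' x' hx' heq'
    let a' : Lt S n → Γ := fun y => x' y.1.1.1 y.1.1.2 (φ (gr y.2))
    have ha' : ∀ b c e, Al b c → FreeGroup.lift a' (zt b c e) = x' b c (φ (gr e)) := by
      intro b c e h
      rw [zt_of h, FreeGroup.lift_apply_of]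
      rfl
    have hP' : PairRel (fun b c (e : Option (Fin n)) => x' b c (φ (gr e))) :=
      pairRel_of_st x' hx' (fun e => φ (gr e)) (map_one φ)
    have hall' : ∀ q, FreeGroup.lift a' (rel n q) = 1 :=
      rel_of_pairRel _ hP' (FreeGroup.lift a') ha'
    have hst' : St (fun b c r => x' b c ((φ : FreeAlgebra (ZMod 2) (Fin n) →+* R) r)) :=
      st_comp_ring x' hx' (φ : FreeAlgebra (ZMod 2) (Fin n) →+* R)
    obtain ⟨π, hπi, hπa⟩ := huniv Γ i' a' (by
        rintro g ⟨⟨⟨b, c⟩, h⟩, e⟩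
        exact heq' g b c _ h.1) (by
        rintro w (⟨q, -, rfl⟩ | ⟨t, ht, rfl⟩)
        · exact hall' q
        · rw [hW t Γ a' hall' _ hst' (fun b c e h => (ha' b c e h).symm)]
          have e0 : (φ : FreeAlgebra (ZMod 2) (Fin n) →+* R) t = 0 := (hφ t).2 (TwoSidedIdeal.subset_span ht)
          rw [e0]
          have := hx'.add (.inr 0) (.inr 1) (by simp) 0 0
          rw [add_zero] at this
          exact (left_eq_mul.1 this))
    refine ⟨π, hπi, ?_⟩
    intro b c r hbc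
    obtain ⟨p, rfl⟩ := hφs r
    have e1 : x b c (φ p) = x₀ b c p := hxφ b c p hbc
    rw [e1]
    exact uniq hU (fun b c r => π (x₀ b c r)) _ (st_comp_hom _ hx₀ π) hst' (by
      intro b c e h
      rw [hx₀z b c e h, zt_of h, FreeGroup.lift_apply_of, hπa]
      rfl) b c p hbc

end Pool.Agent.Y279.BH
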